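import Pool.Agent.Lib_helper52.LQ.Defs
import Pool.Agent.Lib_helper53.LQ.N1
import Pool.Agent.Lib_helper86.LQ.U1
import Pool.Agent.Lib_helper20.LQ.U2

set_option autoImplicit false

namespace Pool.Agent.LQ

open MeasureTheory ENNReal Set Filter Topology Pool.Agent.EPS Pool.Agent.YG

variable {d : ℕ}

theorem us_map_density (μ : Measure (Eu d)) [IsProbabilityMeasure μ] (hμ : μ ≪ volume)
    (m : Eu d) : μ.map (fun x => x - m) =
      (volume : Measure (Eu d)).withDensity (fun x => μ.rnDeriv volume (x + m)) := by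
  have hg : MeasurePreserving (fun x : Eu d => x - m) volume volume :=
    measurePreserving_sub_right volume m
  have hf : Measurable (μ.rnDeriv (volume : Measure (Eu d))) := Measure.measurable_rnDeriv _ _
  have hF : Measurable (fun x : Eu d => μ.rnDeriv volume (x + m)) :=
    hf.comp (measurable_id.add_const m)
  refine Measure.ext fun s hs => ?_
  rw [Measure.map_apply hg.measurable hs, withDensity_apply _ hs]
  have h1 : μ ((fun x => x - m) ⁻¹' s) =
      ∫⁻ x in (fun x => x - m) ⁻¹' s, μ.rnDeriv volume x ∂volume := by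
    rw [Measure.setLIntegral_rnDeriv hμ]
  rw [h1, ← hg.setLIntegral_comp_preimage hs hF]
  simp only [sub_add_cancel]

/-- `ent_cont` and `conv_close`; `ent` is translation invariant
(`α.conv (β.map (· - m)) = (α.conv β).map (· - m)`). -/
theorem ent_map_sub (μ : Measure (Eu d)) [IsProbabilityMeasure μ] (hμ : μ ≪ volume) (m : Eu d) :
    ent (μ.map (fun x => x - m)) = ent μ := by
  have hf : Measurable (μ.rnDeriv (volume : Measure (Eu d))) := Measure.measurable_rnDeriv _ _
  have hF : Measurable (fun x : Eu d => μ.rnDeriv volume (x + m)) :=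
    hf.comp (measurable_id.add_const m)
  unfold ent
  rw [us_map_density μ hμ m]
  have h1 := Measure.rnDeriv_withDensity (volume : Measure (Eu d)) hF
  have h2 : ∫ x, Real.negMulLog ((((volume : Measure (Eu d)).withDensity
      (fun x => μ.rnDeriv volume (x + m))).rnDeriv volume x).toReal) =
      ∫ x, Real.negMulLog ((μ.rnDeriv volume (x + m)).toReal) := by
    refine integral_congr_ae ?_
    filter_upwards [h1] with x hx
    rw [hx]
  rw [h2]
  exact integral_add_right_eq_self (fun x => Real.negMulLog ((μ.rnDeriv volume x).toReal)) m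

theorem us_conv_map (α β : Measure (Eu d)) [IsProbabilityMeasure α] [IsProbabilityMeasure β]
    (m : Eu d) : α.conv (β.map (fun x => x - m)) = (α.conv β).map (fun x => x - m) := by
  have hs : Measurable (fun x : Eu d => x - m) := measurable_id.sub_const m
  unfold Measure.conv
  have h1 : α.prod (β.map (fun x => x - m)) =
      (α.prod β).map (Prod.map id (fun x => x - m)) := by
    rw [← Measure.map_prod_map α β measurable_id hs, Measure.map_id]
  rw [h1, Measure.map_map (by fun_prop) (by fun_prop), Measure.map_map (by fun_prop) (by fun_prop)]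
  congr 1
  funext p
  simp only [Function.comp, Prod.map, id]
  abel

theorem us_norm (L : ℝ) (hL : 0 < L) (y : Eu d) (h : ∀ j, |y j| ≤ L) : ‖y‖ ≤ L * d := by
  rw [EuclideanSpace.norm_eq]
  have h1 : ∑ i, ‖y i‖ ^ 2 ≤ ∑ _i : Fin d, L ^ 2 := by
    refine Finset.sum_le_sum fun i _ => ?_
    rw [Real.norm_eq_abs]
    exact pow_le_pow_left₀ (abs_nonneg _) (h i) 2
  rw [Finset.sum_const, Finset.card_univ, Fintype.card_fin, nsmul_eq_mul] at h1
  have h2 : (d : ℝ) * L ^ 2 ≤ (L * d) ^ 2 := by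
    rcases Nat.eq_zero_or_pos d with h0 | h0
    · subst h0
      simp
    · have : (1 : ℝ) ≤ d := by exact_mod_cast h0
      have h3 : (d : ℝ) ≤ (d : ℝ) ^ 2 := by nlinarith
      nlinarith [sq_nonneg L]
  exact (Real.sqrt_le_sqrt (h1.trans h2)).trans (by rw [Real.sqrt_sq (by positivity)])

theorem us_dens (α β : Measure (Eu d)) [IsProbabilityMeasure α] [IsProbabilityMeasure β]
    (M : NNReal) (h : α ≤ (M : ℝ≥0∞) • (volume : Measure (Eu d))) :
    α.conv β ≤ (M : ℝ≥0∞) • (volume : Measure (Eu d)) := by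
  refine Measure.le_iff.2 fun s hs => ?_
  have hm : Measurable (fun p : Eu d × Eu d => p.1 + p.2) := by fun_prop
  unfold Measure.conv
  rw [Measure.map_apply hm hs, Measure.prod_apply_symm (hm hs)]
  have h1 : ∀ y : Eu d, α ((fun x => (x, y)) ⁻¹' ((fun p : Eu d × Eu d => p.1 + p.2) ⁻¹' s)) ≤
      (M : ℝ≥0∞) * volume s := by
    intro y
    have h2 : (fun x => (x, y)) ⁻¹' ((fun p : Eu d × Eu d => p.1 + p.2) ⁻¹' s) =
        (fun x => x + y) ⁻¹' s := rfl
    rw [h2]
    refine (h _).trans ?_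
    rw [Measure.smul_apply, smul_eq_mul, measure_preimage_add_right]
  refine (lintegral_mono h1).trans ?_
  rw [lintegral_const, measure_univ, mul_one, Measure.smul_apply, smul_eq_mul]

theorem us_supp (α β : Measure (Eu d)) [IsProbabilityMeasure α] [IsProbabilityMeasure β]
    (R S : ℝ) (h : ∀ᵐ x ∂α, ‖x‖ ≤ R) (h' : ∀ᵐ x ∂β, ‖x‖ ≤ S) :
    ∀ᵐ x ∂(α.conv β), ‖x‖ ≤ R + S := by
  unfold Measure.conv
  rw [ae_map_iff (by fun_prop) (measurableSet_le (by fun_prop) (by fun_prop))]
  have h1 : ∀ᵐ p ∂(α.prod β), ‖p.1‖ ≤ R := Measure.quasiMeasurePreserving_fst.ae h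
  have h2 : ∀ᵐ p ∂(α.prod β), ‖p.2‖ ≤ S := Measure.quasiMeasurePreserving_snd.ae h'
  filter_upwards [h1, h2] with p hp hp'
  exact (norm_add_le _ _).trans (add_le_add hp hp')

theorem usc (α : Measure (Eu d)) (hα : Nc α) (L δ : ℝ) (hL : 0 < L) (hδ : 0 < δ) :
    ∃ r > 0, ∀ β : Measure (Eu d), Sp L β → ∑ j, va β j ≤ r →
      ent (α.conv β) ≤ ent α + δ := by
  obtain ⟨hp, ⟨R, hR⟩, M, hM⟩ := hα
  obtain ⟨r₁, hr₁, h1⟩ := ent_cont (d := d) M (|R| + (L * d + (L * d + 1))) δ hδ
  obtain ⟨r, hr, h2⟩ := conv_close α ⟨hp, ⟨R, hR⟩, M, hM⟩ L r₁ hL hr₁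
  refine ⟨r, hr, fun β hβ hv => ?_⟩
  obtain ⟨m, hm, h3⟩ := h2 β hβ hv
  have hpβ : IsProbabilityMeasure β := hβ.1.1
  have hs : Measurable (fun x : Eu d => x - m) := measurable_id.sub_const m
  have hpm : IsProbabilityMeasure (β.map (fun x => x - m)) :=
    Measure.isProbabilityMeasure_map hs.aemeasurable
  have hR' : ∀ᵐ x ∂α, ‖x‖ ≤ |R| := by
    filter_upwards [hR] with x hx
    exact hx.trans (le_abs_self R)
  have hS : ∀ᵐ x ∂(β.map (fun x => x - m)), ‖x‖ ≤ L * d + (L * d + 1) := by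
    rw [ae_map_iff hs.aemeasurable (measurableSet_le (by fun_prop) (by fun_prop))]
    filter_upwards [hβ.2] with y hy
    exact (norm_sub_le _ _).trans (add_le_add (us_norm L hL y hy) hm)
  have h4 := h1 (α.conv (β.map (fun x => x - m))) α inferInstance hp (us_dens _ _ M hM) hM
    (us_supp _ _ _ _ hR' hS) (by
      filter_upwards [hR'] with x hx
      have : (0 : ℝ) ≤ L * d := by positivity
      linarith) h3
  rw [us_conv_map, ent_map_sub (α.conv β) (nc_fin (nc_conv ⟨hp, ⟨R, hR⟩, M, hM⟩ hβ.1)).1 m]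
    at h4
  have := (abs_le.1 h4).2
  linarith

end Pool.Agent.LQ
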